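import Pool.Agent.Q273.V.Stm

/-!
# Project V (helper273): the measure of the neighbourhoods of separated tuples

`S_CELLS` of `Pool.Agent.Q273.V.Stm`.
-/

set_option autoImplicit false

namespace Pool.Agent.Q150.V

open MeasureTheory Finset
open Q273.V

/-- one box -/
theorem box (s n : ℕ) (hs : 1 ≤ s) {ι : Type} [Countable ι] (r : ι → Fin s → ℂ) (A : ℝ) (hA : 1 ≤ A)
    (R : Fin s → ℝ) (hR : ∀ i, 0 < R i)
    (hsep : ∀ x y, x ≠ y → 1 ≤ A ^ 2 * ∏ i, ‖r x i - r y i‖) :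
    volume {ξ : ℝ | |ξ| ≤ n ∧ ∃ x, ∀ i, ‖(ξ : ℂ) - r x i‖ ≤ R i} ≤
      ENNReal.ofReal (32 * (n + 1) * (A ^ 2 * ∏ i, R i) ^ (1 / (s : ℝ))) := by
  have hs0 : s ≠ 0 := by omega
  have hprod : 0 < ∏ i, R i := prod_pos fun i _ => hR i
  obtain ⟨P, hPdef⟩ : ∃ P : ℝ, P = A ^ 2 * ∏ i, R i := ⟨_, rfl⟩
  have hP : 0 < P := by rw [hPdef]; positivity
  rw [← hPdef]
  obtain ⟨Q, hQdef⟩ : ∃ Q : ℝ, Q = P ^ (1 / (s : ℝ)) := ⟨_, rfl⟩
  have hQ : 0 < Q := by rw [hQdef]; positivity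
  have hQs : Q ^ s = P := by
    rw [hQdef, one_div]
    exact Real.rpow_inv_natCast_pow hP.le hs0
  rw [← hQdef]
  have hn : (0 : ℝ) ≤ n := Nat.cast_nonneg n
  by_cases hbig : 1 / 8 ≤ Q
  · have h1 : {ξ : ℝ | |ξ| ≤ n ∧ ∃ x, ∀ i, ‖(ξ : ℂ) - r x i‖ ≤ R i} ⊆ Set.Icc (-(n : ℝ)) n := by
      rintro ξ ⟨h, -⟩
      exact abs_le.1 h
    refine (measure_mono h1).trans ?_
    rw [Real.volume_Icc]
    apply ENNReal.ofReal_le_ofReal
    nlinarith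
  push Not at hbig
  obtain ⟨μ, hμdef⟩ : ∃ μ : ℝ, μ = 1 / (4 * Q) := ⟨_, rfl⟩
  have hμQ : μ * Q = 1 / 4 := by rw [hμdef]; field_simp
  have hμ2 : 2 < μ := by
    rw [hμdef, lt_div_iff₀ (by positivity)]
    linarith
  have hμP : μ ^ s * P = (1 / 4) ^ s := by
    rw [← hQs, ← mul_pow, hμQ]
  have : Nonempty (Fin s) := ⟨⟨0, by omega⟩⟩
  obtain ⟨i0, hi0⟩ : ∃ i0, ∀ i, R i0 ≤ R i := Finite.exists_min R
  obtain ⟨ρ, hρdef⟩ : ∃ ρ, ρ = R i0 := ⟨_, rfl⟩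
  have hρ : 0 < ρ := by rw [hρdef]; exact hR i0
  rw [← hρdef] at hi0
  have hμρ : μ * ρ ≤ 1 := by
    have h1 : ρ ^ s ≤ ∏ i, R i := by
      have h2 : ∏ _i : Fin s, ρ ≤ ∏ i, R i := prod_le_prod (fun _ _ => hρ.le) fun i _ => hi0 i
      rwa [prod_const, card_univ, Fintype.card_fin] at h2
    have h2 : (μ * ρ) ^ s ≤ 1 := by
      rw [mul_pow]
      have hμs : 0 ≤ μ ^ s := by positivity
      have hA2 : 1 ≤ A ^ 2 := one_le_pow₀ hA
      calc μ ^ s * ρ ^ s ≤ μ ^ s * ∏ i, R i := mul_le_mul_of_nonneg_left h1 hμs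
        _ ≤ μ ^ s * P := by
            rw [hPdef]
            refine mul_le_mul_of_nonneg_left ?_ hμs
            nlinarith
        _ = (1 / 4) ^ s := hμP
        _ ≤ 1 := pow_le_one₀ (by norm_num) (by norm_num)
    exact (pow_le_one_iff_of_nonneg (by positivity) hs0).1 h2
  -- the nonempty sets
  have hex : ∀ x : {x : ι // ∃ ξ : ℝ, |ξ| ≤ n ∧ ∀ i, ‖(ξ : ℂ) - r x i‖ ≤ R i},
      ∃ ξ : ℝ, |ξ| ≤ n ∧ ∀ i, ‖(ξ : ℂ) - r x.1 i‖ ≤ R i := fun x => x.2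
  choose ξ0 hξn hξr using hex
  have hdist : ∀ (x : ι) (ξ η : ℝ) (i : Fin s), |ξ - η| ≤ ‖(ξ : ℂ) - r x i‖ + ‖(η : ℂ) - r x i‖ := by
    intro x ξ η i
    have h1 : ((ξ - η : ℝ) : ℂ) = ((ξ : ℂ) - r x i) - ((η : ℂ) - r x i) := by push_cast; ring
    rw [← Real.norm_eq_abs, ← Complex.norm_real, h1]
    exact norm_sub_le _ _
  have hsub : {ξ : ℝ | |ξ| ≤ n ∧ ∃ x, ∀ i, ‖(ξ : ℂ) - r x i‖ ≤ R i} ⊆
      ⋃ x : {x : ι // ∃ ξ : ℝ, |ξ| ≤ n ∧ ∀ i, ‖(ξ : ℂ) - r x i‖ ≤ R i},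
        Set.Icc (ξ0 x - 2 * ρ) (ξ0 x + 2 * ρ) := by
    rintro ξ ⟨h1, x, h2⟩
    rw [Set.mem_iUnion]
    refine ⟨⟨x, ξ, h1, h2⟩, ?_⟩
    have h3 := hdist x ξ (ξ0 ⟨x, ξ, h1, h2⟩) i0
    have h4 := h2 i0
    have h5 := hξr ⟨x, ξ, h1, h2⟩ i0
    have h6 : |ξ - ξ0 ⟨x, ξ, h1, h2⟩| ≤ 2 * ρ := by
      rw [hρdef]
      linarith
    rw [abs_le] at h6
    constructor <;> linarith [h6.1, h6.2]
  have hJ : ∀ (x : {x : ι // ∃ ξ : ℝ, |ξ| ≤ n ∧ ∀ i, ‖(ξ : ℂ) - r x i‖ ≤ R i}) (ξ : ℝ),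
      ξ ∈ Set.Icc (ξ0 x - (μ - 1) * ρ) (ξ0 x + (μ - 1) * ρ) → ∀ i, ‖(ξ : ℂ) - r x.1 i‖ ≤ μ * R i := by
    intro x ξ hξ i
    have h1 : |ξ - ξ0 x| ≤ (μ - 1) * ρ := by
      rw [abs_le]
      constructor <;> linarith [hξ.1, hξ.2]
    have h2 : (ξ : ℂ) - r x.1 i = ((ξ - ξ0 x : ℝ) : ℂ) + ((ξ0 x : ℂ) - r x.1 i) := by push_cast; ring
    rw [h2]
    refine (norm_add_le _ _).trans ?_
    rw [Complex.norm_real, Real.norm_eq_abs]
    have h3 := hξr x i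
    have h4 : (μ - 1) * ρ ≤ (μ - 1) * R i := mul_le_mul_of_nonneg_left (hi0 i) (by linarith)
    nlinarith
  have hdisj : Pairwise (Function.onFun Disjoint
      fun x : {x : ι // ∃ ξ : ℝ, |ξ| ≤ n ∧ ∀ i, ‖(ξ : ℂ) - r x i‖ ≤ R i} =>
        Set.Icc (ξ0 x - (μ - 1) * ρ) (ξ0 x + (μ - 1) * ρ)) := by
    intro x y hxy
    rw [Function.onFun, Set.disjoint_left]
    intro ξ hx hy
    have h1 := hJ x ξ hx
    have h2 := hJ y ξ hy
    have h3 := hsep x.1 y.1 (fun h => hxy (Subtype.ext h))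
    have h4 : ∏ i, ‖r x.1 i - r y.1 i‖ ≤ ∏ i, ((2 * μ) * R i) := by
      refine prod_le_prod (fun _ _ => norm_nonneg _) fun i _ => ?_
      have e : r x.1 i - r y.1 i = ((ξ : ℂ) - r y.1 i) - ((ξ : ℂ) - r x.1 i) := by ring
      rw [e]
      refine (norm_sub_le _ _).trans ?_
      linarith [h1 i, h2 i]
    rw [prod_mul_distrib, prod_const, card_univ, Fintype.card_fin] at h4
    have h5 : A ^ 2 * ∏ i, ‖r x.1 i - r y.1 i‖ ≤ A ^ 2 * ((2 * μ) ^ s * ∏ i, R i) :=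
      mul_le_mul_of_nonneg_left h4 (by positivity)
    have h6 : A ^ 2 * ((2 * μ) ^ s * ∏ i, R i) = 2 ^ s * (μ ^ s * P) := by
      rw [hPdef, mul_pow]
      ring
    have h7 : (2 : ℝ) ^ s * (1 / 4) ^ s < 1 := by
      rw [← mul_pow]
      exact pow_lt_one₀ (by norm_num) (by norm_num) hs0
    rw [h6, hμP] at h5
    linarith
  have hvolJ : ∀ x : {x : ι // ∃ ξ : ℝ, |ξ| ≤ n ∧ ∀ i, ‖(ξ : ℂ) - r x i‖ ≤ R i},
      volume (Set.Icc (ξ0 x - 2 * ρ) (ξ0 x + 2 * ρ)) = ENNReal.ofReal (2 / (μ - 1)) *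
        volume (Set.Icc (ξ0 x - (μ - 1) * ρ) (ξ0 x + (μ - 1) * ρ)) := by
    intro x
    rw [Real.volume_Icc, Real.volume_Icc, ← ENNReal.ofReal_mul (by
      apply div_nonneg <;> linarith)]
    congr 1
    have : μ - 1 ≠ 0 := by linarith
    field_simp
    ring
  refine (measure_mono hsub).trans ((measure_iUnion_le _).trans ?_)
  simp only [hvolJ]
  rw [ENNReal.tsum_mul_left, ← measure_iUnion hdisj (fun x => measurableSet_Icc)]
  have hsub2 : (⋃ x : {x : ι // ∃ ξ : ℝ, |ξ| ≤ n ∧ ∀ i, ‖(ξ : ℂ) - r x i‖ ≤ R i},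
      Set.Icc (ξ0 x - (μ - 1) * ρ) (ξ0 x + (μ - 1) * ρ)) ⊆ Set.Icc (-((n : ℝ) + 1)) (n + 1) := by
    intro ξ hξ
    rw [Set.mem_iUnion] at hξ
    obtain ⟨x, hx⟩ := hξ
    have h1 := abs_le.1 (hξn x)
    have h2 : (μ - 1) * ρ ≤ 1 := by nlinarith
    constructor <;> linarith [hx.1, hx.2, h1.1, h1.2]
  have h9 : ENNReal.ofReal (2 / (μ - 1)) *
      volume (⋃ x : {x : ι // ∃ ξ : ℝ, |ξ| ≤ n ∧ ∀ i, ‖(ξ : ℂ) - r x i‖ ≤ R i},
        Set.Icc (ξ0 x - (μ - 1) * ρ) (ξ0 x + (μ - 1) * ρ)) ≤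
      ENNReal.ofReal (2 / (μ - 1)) * volume (Set.Icc (-((n : ℝ) + 1)) (n + 1)) :=
    mul_le_mul_right (measure_mono hsub2) _
  refine h9.trans ?_
  rw [Real.volume_Icc, ← ENNReal.ofReal_mul (by
      apply div_nonneg <;> linarith)]
  apply ENNReal.ofReal_le_ofReal
  have h10 : 2 / (μ - 1) ≤ 16 * Q := by
    rw [div_le_iff₀ (by linarith)]
    nlinarith
  calc 2 / (μ - 1) * (↑n + 1 - -(↑n + 1)) ≤ 16 * Q * (↑n + 1 - -(↑n + 1)) :=
        mul_le_mul_of_nonneg_right h10 (by linarith)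
    _ = 32 * (↑n + 1) * Q := by ring

/-- the levels -/
theorem level {c t : ℝ} {M : ℕ} (hM : t ≤ c * 2 ^ M) :
    ∃ m : ℕ, m ≤ M ∧ t ≤ c * 2 ^ m ∧ (m = 0 ∨ c * 2 ^ m ≤ 2 * t) := by
  classical
  have hex : ∃ m : ℕ, t ≤ c * 2 ^ m := ⟨M, hM⟩
  refine ⟨Nat.find hex, Nat.find_min' hex hM, Nat.find_spec hex, ?_⟩
  rcases Nat.eq_zero_or_pos (Nat.find hex) with h | h
  · exact Or.inl h
  · right
    have h1 := Nat.find_min hex (m := Nat.find hex - 1) (by omega)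
    push Not at h1
    have h2 : (2 : ℝ) ^ Nat.find hex = 2 * 2 ^ (Nat.find hex - 1) := by
      rw [← pow_succ']
      congr 1
      omega
    rw [h2]
    nlinarith

/-- **CELLS** -/
theorem cells : S_CELLS := by
  intro s n δ hs hδ
  have hs0 : s ≠ 0 := by omega
  have hsR : (0 : ℝ) < s := by exact_mod_cast hs
  have hn : (0 : ℝ) ≤ n := Nat.cast_nonneg n
  obtain ⟨ε, hεdef⟩ : ∃ ε : ℝ, ε = δ / ((s : ℝ) + 1) ^ 2 := ⟨_, rfl⟩
  have hε : 0 < ε := by rw [hεdef]; positivity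
  obtain ⟨Y0, hY0⟩ : ∃ Y0 : ℝ, Y0 = 2 * ((n : ℝ) + 1) := ⟨_, rfl⟩
  have hY01 : 1 ≤ Y0 := by rw [hY0]; linarith
  refine ⟨(2 / ε + 3) ^ (s + 1) * Y0 ^ δ * (32 * ((n : ℝ) + 1) * 8), by positivity, ?_⟩
  intro ι _ A r T κ hT hκ hκT hA hsep
  have hκ1 : κ ≤ 1 := by nlinarith
  obtain ⟨Y, hY⟩ : ∃ Y : ℝ, Y = Y0 * T := ⟨_, rfl⟩
  have hYT : T ≤ Y := by rw [hY]; nlinarith
  have hY1 : 1 ≤ Y := hT.trans hYT
  have hYpos : 0 < Y := by linarith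
  obtain ⟨c, hc⟩ : ∃ c : ℝ, c = κ / Y ^ s := ⟨_, rfl⟩
  have hcpos : 0 < c := by rw [hc]; positivity
  have hcY : c * Y ^ s = κ := by rw [hc]; field_simp
  have hc1 : c ≤ 1 := by
    rw [hc, div_le_one (by positivity)]
    exact hκ1.trans (one_le_pow₀ hY1)
  -- the number of levels
  obtain ⟨X, hX⟩ : ∃ X : ℝ, X = Y ^ (s + 1) / κ := ⟨_, rfl⟩
  have hX1 : 1 ≤ X := by
    rw [hX, le_div_iff₀ hκ, one_mul]
    exact hκ1.trans (one_le_pow₀ hY1)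
  have hXY : Y ≤ X := by
    rw [hX, le_div_iff₀ hκ, pow_succ]
    have := one_le_pow₀ hY1 (n := s)
    nlinarith
  obtain ⟨L, hL1, hL2⟩ := exists_nat_pow_near hX1 (one_lt_two : (1 : ℝ) < 2)
  have hcL : Y ≤ c * 2 ^ (L + 1) := by
    have h1 : c * X = Y := by
      rw [hX, hc, pow_succ]
      field_simp
    calc Y = c * X := h1.symm
      _ ≤ _ := mul_le_mul_of_nonneg_left hL2.le hcpos.le
  -- the boxes
  obtain ⟨Rm, hRm⟩ : ∃ Rm : (Fin s → Fin (L + 2)) → Fin s → ℝ, Rm = fun m i => c * 2 ^ (m i : ℕ) :=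
    ⟨_, rfl⟩
  obtain ⟨Ebox, hEbox⟩ : ∃ Ebox : Fin (L + 2) × (Fin s → Fin (L + 2)) → Set ℝ,
      Ebox = fun q => {ξ : ℝ | (2 : ℝ) ^ (q.1 : ℕ) ≤ T ∧ 2 ^ (q.1 : ℕ) * ∏ i, Rm q.2 i ≤ 2 ^ s * κ ∧
        (|ξ| ≤ n ∧ ∃ x : {x : ι // A x ≤ 2 ^ ((q.1 : ℕ) + 1)}, ∀ i, ‖(ξ : ℂ) - r x.1 i‖ ≤ Rm q.2 i)} :=
    ⟨_, rfl⟩
  have hcover : {ξ : ℝ | |ξ| ≤ n ∧ ∃ x, A x * ∏ i, ‖(ξ : ℂ) - r x i‖ ≤ κ} ⊆
      ⋃ q ∈ (univ : Finset (Fin (L + 2) × (Fin s → Fin (L + 2)))), Ebox q := by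
    rintro ξ ⟨h1, x, h2⟩
    obtain ⟨hA1, hA2, hr⟩ := hA x
    obtain ⟨k, hk1, hk2⟩ := exists_nat_pow_near hA1 (one_lt_two : (1 : ℝ) < 2)
    have hkL : k < L + 2 := by
      have h3 : (2 : ℝ) ^ k < 2 ^ (L + 1) := by linarith
      have := (pow_lt_pow_iff_right₀ (one_lt_two : (1 : ℝ) < 2)).1 h3
      omega
    have ht : ∀ i, ‖(ξ : ℂ) - r x i‖ ≤ Y / 2 := by
      intro i
      have h3 := hr i
      have h4 : ‖(ξ : ℂ)‖ ≤ n := by rw [Complex.norm_real]; exact h1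
      refine (norm_sub_le _ _).trans ?_
      rw [hY, hY0]
      nlinarith
    have hlev : ∀ i, ∃ m : ℕ, m ≤ L + 1 ∧ ‖(ξ : ℂ) - r x i‖ ≤ c * 2 ^ m ∧
        (m = 0 ∨ c * 2 ^ m ≤ 2 * ‖(ξ : ℂ) - r x i‖) := fun i =>
      level ((ht i).trans (by linarith))
    choose m hm1 hm2 hm3 using hlev
    have hRle : ∀ i, c * 2 ^ m i ≤ Y := by
      intro i
      rcases hm3 i with h | h
      · rw [h, pow_zero, mul_one]
        linarith
      · linarith [ht i]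
    have hprodR : A x * ∏ i, (c * 2 ^ m i) ≤ 2 ^ s * κ := by
      by_cases h0 : ∃ i, m i = 0
      · obtain ⟨i, hi⟩ := h0
        have h3 : ∏ j, (c * 2 ^ m j) ≤ c * Y ^ (s - 1) := by
          rw [← mul_prod_erase univ _ (mem_univ i), hi, pow_zero, mul_one]
          refine mul_le_mul_of_nonneg_left ?_ hcpos.le
          have h4 : ∏ j ∈ univ.erase i, (c * 2 ^ m j) ≤ ∏ _j ∈ (univ : Finset (Fin s)).erase i, Y :=
            prod_le_prod (fun _ _ => by positivity) fun j _ => hRle j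
          rwa [prod_const, card_erase_of_mem (mem_univ i), card_univ, Fintype.card_fin] at h4
        have h5 : (1 : ℝ) ≤ 2 ^ s := one_le_pow₀ one_le_two
        have h6 : Y * (c * Y ^ (s - 1)) = κ := by
          rw [← hcY]
          have : Y ^ s = Y * Y ^ (s - 1) := by
            rw [← pow_succ']
            congr 1
            omega
          rw [this]
          ring
        calc A x * ∏ i, (c * 2 ^ m i) ≤ Y * (c * Y ^ (s - 1)) :=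
              mul_le_mul (hA2.trans hYT) h3 (by positivity) hYpos.le
          _ = κ := h6
          _ ≤ 2 ^ s * κ := by nlinarith
      · push Not at h0
        have h3 : ∏ i, (c * 2 ^ m i) ≤ ∏ i, (2 * ‖(ξ : ℂ) - r x i‖) :=
          prod_le_prod (fun _ _ => by positivity) fun i _ => (hm3 i).resolve_left (h0 i)
        have h3' : ∏ i, (2 * ‖(ξ : ℂ) - r x i‖) = 2 ^ s * ∏ i, ‖(ξ : ℂ) - r x i‖ := by
          rw [prod_mul_distrib, prod_const, card_univ, Fintype.card_fin]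
        rw [h3'] at h3
        calc A x * ∏ i, (c * 2 ^ m i) ≤ A x * (2 ^ s * ∏ i, ‖(ξ : ℂ) - r x i‖) :=
              mul_le_mul_of_nonneg_left h3 (by linarith)
          _ = 2 ^ s * (A x * ∏ i, ‖(ξ : ℂ) - r x i‖) := by ring
          _ ≤ 2 ^ s * κ := mul_le_mul_of_nonneg_left h2 (by positivity)
    rw [Set.mem_iUnion₂]
    refine ⟨(⟨k, hkL⟩, fun i => ⟨m i, by have := hm1 i; omega⟩), mem_univ _, ?_⟩
    rw [hEbox]
    refine ⟨hk1.trans hA2, ?_, h1, ⟨x, hk2.le⟩, fun i => ?_⟩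
    · rw [hRm]
      show (2 : ℝ) ^ k * ∏ i, (c * 2 ^ m i) ≤ 2 ^ s * κ
      refine le_trans (mul_le_mul_of_nonneg_right hk1 ?_) hprodR
      exact prod_nonneg fun _ _ => by positivity
    · rw [hRm]
      exact hm2 i
  have hbox : ∀ q : Fin (L + 2) × (Fin s → Fin (L + 2)), volume (Ebox q) ≤
      ENNReal.ofReal (32 * ((n : ℝ) + 1) * 8 * (κ * T) ^ (1 / (s : ℝ))) := by
    intro q
    by_cases hq : (2 : ℝ) ^ (q.1 : ℕ) ≤ T ∧ 2 ^ (q.1 : ℕ) * ∏ i, Rm q.2 i ≤ 2 ^ s * κ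
    · obtain ⟨hq1, hq2⟩ := hq
      have hA2 : (1 : ℝ) ≤ 2 ^ ((q.1 : ℕ) + 1) := one_le_pow₀ one_le_two
      have hRpos : ∀ i, 0 < Rm q.2 i := by
        intro i
        rw [hRm]
        positivity
      have h1 := box s n hs (fun x : {x : ι // A x ≤ 2 ^ ((q.1 : ℕ) + 1)} => r x.1)
        (2 ^ ((q.1 : ℕ) + 1)) hA2 (Rm q.2) hRpos (by
          intro x y hxy
          have h2 := hsep x.1 y.1 (fun h => hxy (Subtype.ext h))
          refine h2.trans (mul_le_mul_of_nonneg_right ?_ (prod_nonneg fun _ _ => norm_nonneg _))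
          rw [sq]
          exact mul_le_mul x.2 y.2 (by linarith [(hA y.1).1]) (by positivity))
      have h2 : Ebox q ⊆ {ξ : ℝ | |ξ| ≤ n ∧ ∃ x : {x : ι // A x ≤ 2 ^ ((q.1 : ℕ) + 1)},
          ∀ i, ‖(ξ : ℂ) - r x.1 i‖ ≤ Rm q.2 i} := by
        rw [hEbox]
        rintro ξ ⟨-, -, h⟩
        exact h
      refine (measure_mono h2).trans (h1.trans ?_)
      apply ENNReal.ofReal_le_ofReal
      rw [mul_assoc (32 * ((n : ℝ) + 1))]
      refine mul_le_mul_of_nonneg_left ?_ (by positivity)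
      have h3 : (2 ^ ((q.1 : ℕ) + 1)) ^ 2 * ∏ i, Rm q.2 i ≤ (8 : ℝ) ^ s * (κ * T) := by
        have e1 : ((2 : ℝ) ^ ((q.1 : ℕ) + 1)) ^ 2 * ∏ i, Rm q.2 i =
            4 * 2 ^ (q.1 : ℕ) * (2 ^ (q.1 : ℕ) * ∏ i, Rm q.2 i) := by
          rw [pow_succ]
          ring
        rw [e1]
        have h4 : (4 : ℝ) ≤ 4 ^ s := by
          calc (4 : ℝ) = 4 ^ 1 := by norm_num
            _ ≤ 4 ^ s := pow_le_pow_right₀ (by norm_num) hs
        have h5 : (8 : ℝ) ^ s = 4 ^ s * 2 ^ s := by rw [← mul_pow]; norm_num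
        rw [h5]
        have hnn : 0 ≤ (2 : ℝ) ^ (q.1 : ℕ) * ∏ i, Rm q.2 i := by
          have := prod_nonneg fun i (_ : i ∈ (univ : Finset (Fin s))) => (hRpos i).le
          positivity
        calc 4 * 2 ^ (q.1 : ℕ) * (2 ^ (q.1 : ℕ) * ∏ i, Rm q.2 i)
            ≤ 4 ^ s * T * (2 ^ s * κ) := by
              refine mul_le_mul ?_ hq2 hnn (by positivity)
              exact mul_le_mul h4 hq1 (by positivity) (by positivity)
          _ = _ := by ring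
      have hnn2 : 0 ≤ ((2 : ℝ) ^ ((q.1 : ℕ) + 1)) ^ 2 * ∏ i, Rm q.2 i := by
        have := prod_nonneg fun i (_ : i ∈ (univ : Finset (Fin s))) => (hRpos i).le
        positivity
      calc (((2 : ℝ) ^ ((q.1 : ℕ) + 1)) ^ 2 * ∏ i, Rm q.2 i) ^ (1 / (s : ℝ))
          ≤ ((8 : ℝ) ^ s * (κ * T)) ^ (1 / (s : ℝ)) :=
            Real.rpow_le_rpow hnn2 h3 (by positivity)
        _ = 8 * (κ * T) ^ (1 / (s : ℝ)) := by
            rw [Real.mul_rpow (by positivity) (by positivity), one_div,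
              Real.pow_rpow_inv_natCast (by norm_num) hs0]
    · have h1 : Ebox q = ∅ := by
        rw [hEbox, Set.eq_empty_iff_forall_notMem]
        rintro ξ ⟨h2, h3, -⟩
        exact hq ⟨h2, h3⟩
      rw [h1, measure_empty]
      exact zero_le
  -- conclusion
  refine (measure_mono hcover).trans ((measure_biUnion_finset_le _ _).trans ?_)
  refine (sum_le_sum fun q _ => hbox q).trans ?_
  rw [sum_const, card_univ, Fintype.card_prod, Fintype.card_fun, Fintype.card_fin, Fintype.card_fin,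
    nsmul_eq_mul]
  rw [← ENNReal.ofReal_natCast, ← ENNReal.ofReal_mul (Nat.cast_nonneg _)]
  apply ENNReal.ofReal_le_ofReal
  have hcount : (((L + 2) * (L + 2) ^ s : ℕ) : ℝ) ≤ (2 / ε + 3) ^ (s + 1) * Y0 ^ δ * (T / κ) ^ δ := by
    push_cast
    have e1 : ((L : ℝ) + 2) * ((L : ℝ) + 2) ^ s = ((L : ℝ) + 2) ^ (s + 1) := (pow_succ' _ _).symm
    rw [e1]
    have hXpos : 0 < X := by linarith
    have h1 : (L : ℝ) * Real.log 2 ≤ Real.log X := by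
      rw [← Real.log_pow]
      exact Real.log_le_log (by positivity) hL1
    have h2 : Real.log X ≤ X ^ ε / ε := Real.log_le_rpow_div hXpos.le hε
    have h3 : (1 : ℝ) ≤ X ^ ε := Real.one_le_rpow hX1 hε.le
    have h4 : (1 / 2 : ℝ) ≤ Real.log 2 := by
      have := Real.log_two_gt_d9
      linarith
    have hLnn : (0 : ℝ) ≤ L := Nat.cast_nonneg L
    have h5 : (L : ℝ) + 2 ≤ (2 / ε + 3) * X ^ ε := by
      have h6 : (L : ℝ) ≤ 2 * (X ^ ε / ε) := by nlinarith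
      have h7 : 2 * (X ^ ε / ε) = 2 / ε * X ^ ε := by ring
      nlinarith
    have h6 : X ≤ (Y0 * (T / κ)) ^ (s + 1) := by
      rw [hX, hY]
      have h7 : (Y0 * (T / κ)) ^ (s + 1) = (Y0 * T) ^ (s + 1) / κ ^ (s + 1) := by
        rw [← mul_div_assoc, div_pow]
      rw [h7]
      refine div_le_div_of_nonneg_left (by positivity) (by positivity) ?_
      calc κ ^ (s + 1) ≤ κ ^ 1 := pow_le_pow_of_le_one hκ.le hκ1 (by omega)
        _ = κ := pow_one _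
    have hYk : 0 ≤ Y0 * (T / κ) := by positivity
    calc ((L : ℝ) + 2) ^ (s + 1) ≤ ((2 / ε + 3) * X ^ ε) ^ (s + 1) :=
          pow_le_pow_left₀ (by positivity) h5 _
      _ = (2 / ε + 3) ^ (s + 1) * (X ^ ε) ^ (s + 1) := mul_pow _ _ _
      _ ≤ (2 / ε + 3) ^ (s + 1) * ((((Y0 * (T / κ)) ^ (s + 1)) ^ ε) ^ (s + 1)) := by
          refine mul_le_mul_of_nonneg_left ?_ (by positivity)
          exact pow_le_pow_left₀ (by positivity) (Real.rpow_le_rpow hXpos.le h6 hε.le) _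
      _ = (2 / ε + 3) ^ (s + 1) * Y0 ^ δ * (T / κ) ^ δ := by
          have e2 : (((Y0 * (T / κ)) ^ (s + 1)) ^ ε) ^ (s + 1) = Y0 ^ δ * (T / κ) ^ δ := by
            rw [← Real.rpow_natCast (((Y0 * (T / κ)) ^ (s + 1)) ^ ε),
              ← Real.rpow_natCast (Y0 * (T / κ)), ← Real.rpow_mul hYk, ← Real.rpow_mul hYk,
              ← Real.mul_rpow (by positivity) (by positivity)]
            congr 1
            rw [hεdef]
            push_cast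
            field_simp
          rw [e2]
          ring
  have hKT : 0 ≤ (κ * T) ^ (1 / (s : ℝ)) := by positivity
  calc (((L + 2) * (L + 2) ^ s : ℕ) : ℝ) * (32 * ((n : ℝ) + 1) * 8 * (κ * T) ^ (1 / (s : ℝ)))
      ≤ ((2 / ε + 3) ^ (s + 1) * Y0 ^ δ * (T / κ) ^ δ) *
        (32 * ((n : ℝ) + 1) * 8 * (κ * T) ^ (1 / (s : ℝ))) :=
        mul_le_mul_of_nonneg_right hcount (by positivity)
    _ = _ := by ring

end Pool.Agent.Q150.V
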