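import Pool.Agent.Q150.V.CnttA
import Pool.Agent.Helper112.Arith

/-!
# Project V (helper273): the number of triples (job CNTT)

`S_CNTT` of `Pool.Agent.Q273.V.Stm2`.
-/

set_option autoImplicit false

namespace Pool.Agent.Q150.V

open Finset Q273.V

theorem cubic_coeff {R : Type} [CommRing R] (u v w z : R) :
    (Polynomial.C u * Polynomial.X ^ 3 + Polynomial.C v * Polynomial.X ^ 2 +
      Polynomial.C w * Polynomial.X + Polynomial.C z).coeff 3 = u ∧
    (Polynomial.C u * Polynomial.X ^ 3 + Polynomial.C v * Polynomial.X ^ 2 +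
      Polynomial.C w * Polynomial.X + Polynomial.C z).coeff 2 = v ∧
    (Polynomial.C u * Polynomial.X ^ 3 + Polynomial.C v * Polynomial.X ^ 2 +
      Polynomial.C w * Polynomial.X + Polynomial.C z).coeff 1 = w ∧
    (Polynomial.C u * Polynomial.X ^ 3 + Polynomial.C v * Polynomial.X ^ 2 +
      Polynomial.C w * Polynomial.X + Polynomial.C z).coeff 0 = z := by
  refine ⟨?_, ?_, ?_, ?_⟩ <;>
    simp [Polynomial.coeff_X, Polynomial.coeff_C, Polynomial.coeff_X_pow]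

/-- the zeros modulo `p` -/
noncomputable def Rp (a b c d δ : ℤ) (p : ℕ) : Finset ℤ :=
  (Finset.Ico (0 : ℤ) p).filter fun β => (p : ℤ) ∣ FF a b c d β δ

theorem card_Rp {a b c d : ℤ} (h : Mxl a b c d) {p : ℕ} (hp : p.Prime) {δ : ℤ}
    (hδ : ¬ (p : ℤ) ∣ δ) : (Rp a b c d δ p).card ≤ 3 := by
  classical
  have : Fact p.Prime := ⟨hp⟩
  have hpZ : Prime (p : ℤ) := Nat.prime_iff_prime_int.1 hp
  obtain ⟨hM1, -⟩ := h p hp
  obtain ⟨P, hP⟩ : ∃ P : Polynomial (ZMod p), P = Polynomial.C (a : ZMod p) * Polynomial.X ^ 3 +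
      Polynomial.C ((b * δ : ℤ) : ZMod p) * Polynomial.X ^ 2 +
      Polynomial.C ((c * δ ^ 2 : ℤ) : ZMod p) * Polynomial.X +
      Polynomial.C ((d * δ ^ 3 : ℤ) : ZMod p) := ⟨_, rfl⟩
  have hP0 : P ≠ 0 := by
    intro h0
    apply hM1
    obtain ⟨c3, c2, c1, c0⟩ := cubic_coeff (a : ZMod p) ((b * δ : ℤ) : ZMod p)
      ((c * δ ^ 2 : ℤ) : ZMod p) ((d * δ ^ 3 : ℤ) : ZMod p)
    rw [← hP] at c3 c2 c1 c0
    rw [h0, Polynomial.coeff_zero] at c0 c1 c2 c3
    have e3 := (ZMod.intCast_zmod_eq_zero_iff_dvd _ p).1 c3.symm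
    have e2 := (ZMod.intCast_zmod_eq_zero_iff_dvd _ p).1 c2.symm
    have e1 := (ZMod.intCast_zmod_eq_zero_iff_dvd _ p).1 c1.symm
    have e0 := (ZMod.intCast_zmod_eq_zero_iff_dvd _ p).1 c0.symm
    exact ⟨e3, (hpZ.dvd_or_dvd e2).resolve_right hδ,
      (hpZ.dvd_or_dvd e1).resolve_right fun h8 => hδ (hpZ.dvd_of_dvd_pow h8),
      (hpZ.dvd_or_dvd e0).resolve_right fun h8 => hδ (hpZ.dvd_of_dvd_pow h8)⟩
  have hdeg : P.natDegree ≤ 3 := by
    rw [hP]
    compute_degree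
  have hcard : P.roots.toFinset.card ≤ 3 :=
    (Multiset.toFinset_card_le _).trans ((Polynomial.card_roots' P).trans hdeg)
  refine le_trans (Finset.card_le_card_of_injOn (fun β : ℤ => (β : ZMod p)) ?_ ?_) hcard
  · intro β hβ
    have hβ' := (mem_filter.1 (mem_coe.1 hβ)).2
    rw [mem_coe, Multiset.mem_toFinset, Polynomial.mem_roots hP0, Polynomial.IsRoot, hP]
    have h1 := (ZMod.intCast_zmod_eq_zero_iff_dvd _ p).2 hβ'
    unfold FF at h1
    simp only [Polynomial.eval_add, Polynomial.eval_mul, Polynomial.eval_C, Polynomial.eval_pow,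
      Polynomial.eval_X]
    push_cast at h1 ⊢
    linear_combination h1
  · intro β hβ β' hβ' he
    have h1 := mem_Ico.1 (mem_filter.1 (mem_coe.1 hβ)).1
    have h2 := mem_Ico.1 (mem_filter.1 (mem_coe.1 hβ')).1
    have h3 : (p : ℤ) ∣ β' - β := (ZMod.intCast_eq_intCast_iff_dvd_sub _ _ _).1 he
    obtain ⟨m, hm⟩ := h3
    have hp1 : (1 : ℤ) ≤ p := by exact_mod_cast hp.one_le
    have h4 : m = 0 := by
      rcases lt_trichotomy m 0 with h5 | h5 | h5
      · have : (p : ℤ) * m ≤ p * (-1) := mul_le_mul_of_nonneg_left (by omega) (by omega)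
        omega
      · exact h5
      · have : (p : ℤ) * 1 ≤ p * m := mul_le_mul_of_nonneg_left (by omega) (by omega)
        omega
    rw [h4, mul_zero] at hm
    omega

/-- the number of `β` for given `α`, `δ` and content -/
theorem card_T {a b c d : ℤ} (h : Mxl a b c d) {α δ : ℤ} (hα : 1 ≤ α) (hδ : δ ≠ 0) {G h' : ℕ}
    (hG : G ≠ 0) (hGh : G * h' = (α * δ).natAbs) (T : Finset ℤ)
    (hT : ∀ β ∈ T, 0 ≤ β ∧ β < α ∧ Int.gcd (Int.gcd α β) δ = 1 ∧ ct a b c d α β δ = G) :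
    T.card ≤ 3 ^ G.primeFactors.card * h' := by
  classical
  have hα0 : α ≠ 0 := by omega
  obtain ⟨Pr, hPr⟩ : ∃ Pr : Finset ℕ, Pr = G.primeFactors.filter (fun p : ℕ => ¬ (p : ℤ) ∣ δ) :=
    ⟨_, rfl⟩
  obtain ⟨Φ, hΦ⟩ : ∃ Φ : ℤ → (∀ p ∈ Pr, ℤ), Φ = fun β (p : ℕ) (_ : p ∈ Pr) => β % (p : ℤ) :=
    ⟨_, rfl⟩
  -- the image
  have himg : (T.image Φ).card ≤ 3 ^ G.primeFactors.card := by
    have h1 : T.image Φ ⊆ Pr.pi (fun p => Rp a b c d δ p) := by
      intro g hg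
      rw [mem_image] at hg
      obtain ⟨β, hβ, rfl⟩ := hg
      rw [Finset.mem_pi]
      intro p hp
      have hp' := hp
      rw [hPr, mem_filter, Nat.mem_primeFactors] at hp'
      obtain ⟨⟨hpp, hpG, -⟩, hpδ⟩ := hp'
      obtain ⟨hb1, hb2, hb3, hb4⟩ := hT β hβ
      have hct : (p : ℤ) ∣ (ct a b c d α β δ : ℤ) := by
        rw [hb4]
        exact Int.natCast_dvd_natCast.2 hpG
      obtain ⟨-, -, -, e4⟩ := ct_dvds a b c d α β δ hct
      have hppos : (0 : ℤ) < p := by exact_mod_cast hpp.pos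
      rw [hΦ]
      unfold Rp
      rw [mem_filter, mem_Ico]
      refine ⟨⟨Int.emod_nonneg _ hppos.ne', Int.emod_lt_of_pos _ hppos⟩, ?_⟩
      have h2 : (p : ℤ) ∣ FF a b c d β δ - FF a b c d (β % p) δ := by
        have h3 : (p : ℤ) ∣ β - β % p := Int.dvd_self_sub_emod
        have h4 : FF a b c d β δ - FF a b c d (β % p) δ = (β - β % p) *
            (a * (β ^ 2 + β * (β % p) + (β % p) ^ 2) + b * (β + β % p) * δ + c * δ ^ 2) := by
          unfold FF
          ring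
        rw [h4]
        exact h3.mul_right _
      exact (dvd_iff_dvd_of_dvd_sub h2).1 e4
    refine (card_le_card h1).trans ?_
    rw [card_pi]
    have h2 : ∏ p ∈ Pr, (Rp a b c d δ p).card ≤ ∏ _p ∈ Pr, 3 := by
      refine prod_le_prod' fun p hp => ?_
      rw [hPr, mem_filter, Nat.mem_primeFactors] at hp
      exact card_Rp h hp.1.1 hp.2
    refine h2.trans ?_
    rw [prod_const]
    refine Nat.pow_le_pow_right (by norm_num) ?_
    rw [hPr]
    exact card_filter_le _ _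
  -- two elements of a fibre
  have hdvd : ∀ β ∈ T, ∀ β' ∈ T, Φ β = Φ β' → (G : ℤ) ∣ (β' - β) * δ := by
    intro β hβ β' hβ' he
    obtain ⟨hb1, hb2, hb3, hb4⟩ := hT β hβ
    obtain ⟨hc1, hc2, hc3, hc4⟩ := hT β' hβ'
    rw [Int.natCast_dvd, Nat.dvd_iff_prime_pow_dvd_dvd]
    intro p t hp ht
    have hpZ : Prime (p : ℤ) := Nat.prime_iff_prime_int.1 hp
    have goal : (p : ℤ) ^ t ∣ (β' - β) * δ → p ^ t ∣ ((β' - β) * δ).natAbs := by
      intro h1
      apply Int.natCast_dvd.1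
      push_cast
      exact h1
    apply goal
    rcases Nat.eq_zero_or_pos t with ht0 | ht0
    · rw [ht0, pow_zero]
      exact one_dvd _
    have hpG : p ∣ G := (dvd_pow_self p (by omega)).trans ht
    by_cases hpα : (p : ℤ) ∣ α
    · have hF : ∀ β0, ct a b c d α β0 δ = G → (p : ℤ) ^ t ∣ FF a b c d β0 δ := by
        intro β0 hβ0
        have hct : (p : ℤ) ^ t ∣ (ct a b c d α β0 δ : ℤ) := by
          rw [hβ0]
          have := Int.natCast_dvd_natCast.2 ht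
          push_cast at this
          exact this
        exact (ct_dvds a b c d α β0 δ hct).2.2.2
      refine lift h hp ht0 (hF β hb4) (hF β' hc4) ?_ (not_both hb3 hp hpα) (not_both hc3 hp hpα)
      by_cases hpδ : (p : ℤ) ∣ δ
      · exact hpδ.mul_left _
      · have hmem : p ∈ Pr := by
          rw [hPr, mem_filter, Nat.mem_primeFactors]
          exact ⟨⟨hp, hpG, hG⟩, hpδ⟩
        have h1 : Φ β p hmem = Φ β' p hmem := by rw [he]
        rw [hΦ] at h1
        have h2 : β % (p : ℤ) = β' % (p : ℤ) := h1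
        exact (Int.modEq_iff_dvd.1 h2).mul_right _
    · have h1 : (p : ℤ) ^ t ∣ α * δ := by
        have h2 : p ^ t ∣ (α * δ).natAbs := by
          rw [← hGh]
          exact ht.mul_right _
        have h3 := Int.natCast_dvd.2 h2
        push_cast at h3
        exact h3
      exact ((cop_pow hp hpα t).dvd_of_dvd_mul_left h1).mul_left _
  -- the fibres
  have hfib : ∀ g ∈ T.image Φ, (T.filter (fun x => Φ x = g)).card ≤ h' := by
    intro g _
    rcases (T.filter (fun x => Φ x = g)).eq_empty_or_nonempty with h0 | h0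
    · rw [h0, card_empty]
      exact Nat.zero_le _
    obtain ⟨β0, hβ0, hmin⟩ := exists_min_image (T.filter (fun x => Φ x = g)) id h0
    rw [mem_filter] at hβ0
    have hrange : ∀ β ∈ T.filter (fun x => Φ x = g), 0 ≤ β - β0 ∧ ∃ q : ℕ, q < h' ∧
        ((β - β0) * δ).natAbs = G * q := by
      intro β hβ
      have h1 := hmin β hβ
      rw [mem_filter] at hβ
      have h2 := hdvd β0 hβ0.1 β hβ.1 (by rw [hβ0.2, hβ.2])
      have h3 := Int.natCast_dvd.1 h2
      obtain ⟨q, hq⟩ := h3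
      have h4 : 0 ≤ β - β0 := by
        simp only [id] at h1
        omega
      refine ⟨h4, q, ?_, hq⟩
      by_contra h5
      push Not at h5
      have h6 : G * h' ≤ ((β - β0) * δ).natAbs := by
        rw [hq]
        exact Nat.mul_le_mul_left _ h5
      rw [hGh, Int.natAbs_mul, Int.natAbs_mul] at h6
      have h7 := Nat.le_of_mul_le_mul_right h6 (Int.natAbs_pos.2 hδ)
      obtain ⟨hb1, hb2, -, -⟩ := hT β hβ.1
      obtain ⟨hc1, hc2, -, -⟩ := hT β0 hβ0.1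
      omega
    have hcard : (T.filter (fun x => Φ x = g)).card ≤ (range h').card := by
      refine card_le_card_of_injOn (fun β => ((β - β0) * δ).natAbs / G) ?_ ?_
      · intro β hβ
        obtain ⟨-, q, hq1, hq2⟩ := hrange β (mem_coe.1 hβ)
        rw [mem_coe, mem_range]
        show ((β - β0) * δ).natAbs / G < h'
        rw [hq2, Nat.mul_div_cancel_left _ (Nat.pos_of_ne_zero hG)]
        exact hq1
      · intro β hβ β' hβ' he
        obtain ⟨h1, q, hq1, hq2⟩ := hrange β (mem_coe.1 hβ)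
        obtain ⟨h1', q', hq1', hq2'⟩ := hrange β' (mem_coe.1 hβ')
        have he' : ((β - β0) * δ).natAbs / G = ((β' - β0) * δ).natAbs / G := he
        rw [hq2, hq2', Nat.mul_div_cancel_left _ (Nat.pos_of_ne_zero hG),
          Nat.mul_div_cancel_left _ (Nat.pos_of_ne_zero hG)] at he'
        rw [← he', ← hq2, Int.natAbs_mul, Int.natAbs_mul] at hq2'
        have h7 := Nat.eq_of_mul_eq_mul_right (Int.natAbs_pos.2 hδ) hq2'
        omega
    rwa [card_range] at hcard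
  have h9 := card_le_mul_card_image T h' hfib
  calc T.card ≤ h' * (T.image Φ).card := h9
    _ ≤ h' * 3 ^ G.primeFactors.card := Nat.mul_le_mul_left _ himg
    _ = _ := mul_comm _ _

theorem inv_sq_sum (n : ℕ) : ∑ i ∈ range n, 1 / ((i : ℝ) + 1) ^ 2 ≤ 2 := by
  have h : ∀ n : ℕ, ∑ i ∈ range n, 1 / ((i : ℝ) + 1) ^ 2 ≤ 2 - 1 / ((n : ℝ) + 1 / 2) := by
    intro n
    induction n with
    | zero => norm_num
    | succ n ih =>
      rw [sum_range_succ]
      have hn : (0 : ℝ) ≤ n := Nat.cast_nonneg n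
      have h1 : 1 / ((n : ℝ) + 1) ^ 2 ≤ 1 / ((n : ℝ) + 1 / 2) - 1 / (((n : ℝ) + 1) + 1 / 2) := by
        rw [div_sub_div _ _ (by positivity) (by positivity),
          div_le_div_iff₀ (by positivity) (by positivity)]
        nlinarith [hn, mul_nonneg hn hn]
      push_cast
      linarith
  have h2 := h n
  have h3 : (0 : ℝ) < 1 / ((n : ℝ) + 1 / 2) := by positivity
  linarith

theorem three_pow_le {n : ℕ} (hn : n ≠ 0) : 3 ^ n.primeFactors.card ≤ n.divisors.card ^ 2 := by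
  have h1 : 2 ^ n.primeFactors.card ≤ n.divisors.card := by
    rw [Nat.card_divisors hn, ← prod_const]
    refine prod_le_prod' fun p hp => ?_
    have h2 : n.factorization p ≠ 0 := by
      rw [← Nat.support_factorization, Finsupp.mem_support_iff] at hp
      exact hp
    omega
  calc 3 ^ n.primeFactors.card ≤ 4 ^ n.primeFactors.card := Nat.pow_le_pow_left (by norm_num) _
    _ = (2 ^ n.primeFactors.card) ^ 2 := by rw [← pow_mul, mul_comm, pow_mul]; norm_num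
    _ ≤ _ := Nat.pow_le_pow_left h1 2

/-- one class of triples -/
theorem card_Q {a b c d : ℤ} (h : Mxl a b c d) {α G h' : ℕ} (hG : G ≠ 0)
    (Q : Finset (ℤ × ℤ × ℤ))
    (hQ : ∀ t ∈ Q, 1 ≤ t.1 ∧ t.2.2 ≠ 0 ∧ 0 ≤ t.2.1 ∧ t.2.1 < t.1 ∧
      Int.gcd (Int.gcd t.1 t.2.1) t.2.2 = 1 ∧ t.1.natAbs = α ∧ ct a b c d t.1 t.2.1 t.2.2 = G ∧
      G * h' = (t.1 * t.2.2).natAbs) : Q.card ≤ 3 ^ G.primeFactors.card * h' * 2 := by
  classical
  rcases Q.eq_empty_or_nonempty with h0 | ⟨t0, ht0⟩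
  · rw [h0, card_empty]
    exact Nat.zero_le _
  have himg : (Q.image fun t => t.2.2).card ≤ 2 := by
    have hsub : (Q.image fun t => t.2.2) ⊆ {t0.2.2, -t0.2.2} := by
      intro x hx
      rw [mem_image] at hx
      obtain ⟨t, ht, rfl⟩ := hx
      obtain ⟨a1, a2, a3, a4, a5, a6, a7, a8⟩ := hQ t ht
      obtain ⟨b1, b2, b3, b4, b5, b6, b7, b8⟩ := hQ t0 ht0
      rw [mem_insert, mem_singleton]
      apply Int.natAbs_eq_natAbs_iff.1
      rw [a8, Int.natAbs_mul, Int.natAbs_mul, a6, b6] at b8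
      have hα : 0 < α := by omega
      exact Nat.eq_of_mul_eq_mul_left hα b8
    exact (card_le_card hsub).trans card_le_two
  have hfib : ∀ δ ∈ Q.image fun t => t.2.2, (Q.filter fun t => t.2.2 = δ).card ≤
      3 ^ G.primeFactors.card * h' := by
    intro δ hδ
    rw [mem_image] at hδ
    obtain ⟨t1, ht1, rfl⟩ := hδ
    obtain ⟨b1, b2, b3, b4, b5, b6, b7, b8⟩ := hQ t1 ht1
    have hα : ∀ t ∈ Q, t.1 = t1.1 := by
      intro t ht
      obtain ⟨a1, a2, a3, a4, a5, a6, a7, a8⟩ := hQ t ht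
      omega
    have hinj : Set.InjOn (fun t : ℤ × ℤ × ℤ => t.2.1) (Q.filter fun t => t.2.2 = t1.2.2) := by
      intro t ht t' ht' he
      rw [mem_coe, mem_filter] at ht ht'
      have he' : t.2.1 = t'.2.1 := he
      exact Prod.ext ((hα t ht.1).trans (hα t' ht'.1).symm) (Prod.ext he' (ht.2.trans ht'.2.symm))
    rw [← card_image_of_injOn hinj]
    refine card_T h b1 b2 hG b8 _ ?_
    intro β hβ
    rw [mem_image] at hβ
    obtain ⟨t, ht, rfl⟩ := hβ
    rw [mem_filter] at ht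
    obtain ⟨a1, a2, a3, a4, a5, a6, a7, a8⟩ := hQ t ht.1
    rw [hα t ht.1, ht.2] at a5 a7
    rw [hα t ht.1] at a4
    exact ⟨a3, a4, a5, a7⟩
  calc Q.card ≤ 3 ^ G.primeFactors.card * h' * (Q.image fun t => t.2.2).card :=
        card_le_mul_card_image Q _ hfib
    _ ≤ _ := Nat.mul_le_mul_left _ himg

/-- **CNTT** -/
theorem cntt : S_CNTT := by
  classical
  intro θ hθ
  obtain ⟨C1, hC1, hdiv⟩ := Pool.Agent.Helper112.divisor_bound (θ / 3) (by positivity)
  refine ⟨4 * C1 ^ 3, by positivity, ?_⟩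
  intro a b c d h B S hB hS
  obtain ⟨D, hD⟩ : ∃ D : ℝ, D = C1 * B ^ (θ / 3) := ⟨_, rfl⟩
  have hD0 : 0 < D := by rw [hD]; positivity
  have hdivB : ∀ n : ℕ, 1 ≤ n → (n : ℝ) ≤ B → (n.divisors.card : ℝ) ≤ D := by
    intro n hn hnB
    refine (hdiv n hn).trans ?_
    rw [hD]
    exact mul_le_mul_of_nonneg_left
      (Real.rpow_le_rpow (Nat.cast_nonneg _) hnB (by positivity)) hC1.le
  have hcover : S ⊆ (range ⌊B⌋₊).biUnion fun i => (Icc 1 ⌊B / ((i : ℝ) + 1) ^ 3⌋₊).biUnion fun G =>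
      ((G * (i + 1)).divisors).biUnion fun α => S.filter fun t => t.1.natAbs = α ∧
        ct a b c d t.1 t.2.1 t.2.2 = G ∧ G * (i + 1) = (t.1 * t.2.2).natAbs := by
    intro t ht
    obtain ⟨a1, a2, a3, a4, a5, a6⟩ := hS t ht
    have ht0 : t.1 ≠ 0 := by omega
    have hne : (t.1 * t.2.2).natAbs ≠ 0 := Int.natAbs_ne_zero.2 (mul_ne_zero ht0 a2)
    obtain ⟨h', hh'⟩ := ct_dvd h ht0 a2 a5
    obtain ⟨G, hG⟩ : ∃ G : ℕ, G = ct a b c d t.1 t.2.1 t.2.2 := ⟨_, rfl⟩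
    rw [← hG] at hh' a6
    have hG0 : G ≠ 0 := fun h0 => hne (by rw [hh', h0, zero_mul])
    have hh0 : h' ≠ 0 := fun h0 => hne (by rw [hh', h0, mul_zero])
    have hGR : (1 : ℝ) ≤ G := by exact_mod_cast Nat.pos_of_ne_zero hG0
    have hhR : (1 : ℝ) ≤ h' := by exact_mod_cast Nat.pos_of_ne_zero hh0
    have hn : |(t.1 : ℝ) * t.2.2| = (G : ℝ) * h' := by
      have h1 : ((t.1 * t.2.2).natAbs : ℝ) = |((t.1 * t.2.2 : ℤ) : ℝ)| := by
        rw [← Int.cast_abs, Int.abs_eq_natAbs, Int.cast_natCast]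
      rw [← Int.cast_mul, ← h1, hh']
      push_cast
      rfl
    rw [hn] at a6
    have hGh : (G : ℝ) * (h' : ℝ) ^ 3 ≤ B := by
      have h1 : (G : ℝ) ^ 2 * ((G : ℝ) * (h' : ℝ) ^ 3) ≤ (G : ℝ) ^ 2 * B := by nlinarith
      exact le_of_mul_le_mul_left h1 (by positivity)
    have h3 : (h' : ℝ) ≤ (h' : ℝ) ^ 3 := by
      calc (h' : ℝ) = (h' : ℝ) ^ 1 := (pow_one _).symm
        _ ≤ _ := pow_le_pow_right₀ hhR (by norm_num)
    have hpos3 : (0 : ℝ) < (h' : ℝ) ^ 3 := by positivity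
    rw [mem_biUnion]
    refine ⟨h' - 1, ?_, ?_⟩
    · rw [mem_range]
      have h4 : (h' : ℝ) ≤ B := by nlinarith
      have h5 : h' ≤ ⌊B⌋₊ := Nat.le_floor h4
      omega
    · have h4 : h' - 1 + 1 = h' := by omega
      have h5 : ((h' - 1 : ℕ) : ℝ) + 1 = h' := by exact_mod_cast h4
      rw [mem_biUnion]
      refine ⟨G, ?_, ?_⟩
      · rw [mem_Icc, h5]
        refine ⟨Nat.pos_of_ne_zero hG0, Nat.le_floor ?_⟩
        rw [le_div_iff₀ hpos3]
        exact hGh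
      · rw [mem_biUnion, h4]
        refine ⟨t.1.natAbs, ?_, ?_⟩
        · rw [Nat.mem_divisors]
          refine ⟨?_, mul_ne_zero hG0 hh0⟩
          rw [← hh', Int.natAbs_mul]
          exact dvd_mul_right _ _
        · rw [mem_filter]
          exact ⟨ht, rfl, hG.symm, hh'.symm⟩
  have h1 : (S.card : ℝ) ≤ ∑ i ∈ range ⌊B⌋₊, ∑ G ∈ Icc 1 ⌊B / ((i : ℝ) + 1) ^ 3⌋₊,
      ∑ _α ∈ (G * (i + 1)).divisors, ((3 ^ G.primeFactors.card * (i + 1) * 2 : ℕ) : ℝ) := by
    have h2 : S.card ≤ ∑ i ∈ range ⌊B⌋₊, ∑ G ∈ Icc 1 ⌊B / ((i : ℝ) + 1) ^ 3⌋₊,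
      ∑ _α ∈ (G * (i + 1)).divisors, (3 ^ G.primeFactors.card * (i + 1) * 2) := by
      refine (card_le_card hcover).trans (card_biUnion_le.trans (sum_le_sum fun i _ => ?_))
      refine card_biUnion_le.trans (sum_le_sum fun G hG => ?_)
      refine card_biUnion_le.trans (sum_le_sum fun α _ => ?_)
      have hG0 : G ≠ 0 := by
        rw [mem_Icc] at hG
        omega
      refine card_Q h (α := α) hG0 _ ?_
      intro t ht
      rw [mem_filter] at ht
      obtain ⟨ht1, ht2, ht3, ht4⟩ := ht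
      obtain ⟨a1, a2, a3, a4, a5, a6⟩ := hS t ht1
      exact ⟨a1, a2, a3, a4, a5, ht2, ht3, ht4⟩
    exact_mod_cast h2
  refine h1.trans ?_
  have h2 : ∀ i ∈ range ⌊B⌋₊, ∑ G ∈ Icc 1 ⌊B / ((i : ℝ) + 1) ^ 3⌋₊,
      ∑ _α ∈ (G * (i + 1)).divisors, ((3 ^ G.primeFactors.card * (i + 1) * 2 : ℕ) : ℝ) ≤
      (2 * D ^ 3 * B) * (1 / ((i : ℝ) + 1) ^ 2) := by
    intro i _
    have hi : (0 : ℝ) ≤ i := Nat.cast_nonneg i
    have h3 : ∀ G ∈ Icc 1 ⌊B / ((i : ℝ) + 1) ^ 3⌋₊,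
        ∑ _α ∈ (G * (i + 1)).divisors, ((3 ^ G.primeFactors.card * (i + 1) * 2 : ℕ) : ℝ) ≤
        2 * D ^ 3 * ((i : ℝ) + 1) := by
      intro G hG
      rw [mem_Icc] at hG
      have hG0 : G ≠ 0 := by omega
      have hGB : (G : ℝ) * ((i : ℝ) + 1) ^ 3 ≤ B := by
        have h4 : (G : ℝ) ≤ B / ((i : ℝ) + 1) ^ 3 :=
          (Nat.le_floor_iff (by positivity)).1 hG.2
        rwa [le_div_iff₀ (by positivity)] at h4
      have hGR : (1 : ℝ) ≤ G := by exact_mod_cast hG.1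
      have h5 : (1 : ℝ) ≤ (i : ℝ) + 1 := by linarith
      have h6 : (i : ℝ) + 1 ≤ ((i : ℝ) + 1) ^ 3 := by
        calc (i : ℝ) + 1 = ((i : ℝ) + 1) ^ 1 := (pow_one _).symm
          _ ≤ _ := pow_le_pow_right₀ h5 (by norm_num)
      have h7 : ((G * (i + 1) : ℕ) : ℝ) ≤ B := by
        push_cast
        nlinarith
      have h8 : (G : ℝ) ≤ B := by nlinarith
      have h9 := hdivB (G * (i + 1)) (Nat.pos_of_ne_zero (mul_ne_zero hG0 (by omega))) h7
      have h10 := hdivB G hG.1 h8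
      have h11 : ((3 ^ G.primeFactors.card : ℕ) : ℝ) ≤ D ^ 2 := by
        calc ((3 ^ G.primeFactors.card : ℕ) : ℝ) ≤ ((G.divisors.card ^ 2 : ℕ) : ℝ) := by
              exact_mod_cast three_pow_le hG0
          _ = (G.divisors.card : ℝ) ^ 2 := by push_cast; rfl
          _ ≤ D ^ 2 := pow_le_pow_left₀ (Nat.cast_nonneg _) h10 2
      rw [sum_const, nsmul_eq_mul]
      have e1 : ((3 ^ G.primeFactors.card * (i + 1) * 2 : ℕ) : ℝ) =
          ((3 ^ G.primeFactors.card : ℕ) : ℝ) * (((i : ℝ) + 1) * 2) := by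
        push_cast
        ring
      rw [e1]
      calc ((G * (i + 1)).divisors.card : ℝ) * (((3 ^ G.primeFactors.card : ℕ) : ℝ) * (((i : ℝ) + 1) * 2))
          ≤ D * (D ^ 2 * (((i : ℝ) + 1) * 2)) := by
            refine mul_le_mul h9 ?_ (by positivity) hD0.le
            exact mul_le_mul_of_nonneg_right h11 (by positivity)
        _ = _ := by ring
    refine (sum_le_sum h3).trans ?_
    rw [sum_const, nsmul_eq_mul, Nat.card_Icc, Nat.add_sub_cancel]
    have h4 : (⌊B / ((i : ℝ) + 1) ^ 3⌋₊ : ℝ) ≤ B / ((i : ℝ) + 1) ^ 3 := Nat.floor_le (by positivity)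
    calc (⌊B / ((i : ℝ) + 1) ^ 3⌋₊ : ℝ) * (2 * D ^ 3 * ((i : ℝ) + 1))
        ≤ B / ((i : ℝ) + 1) ^ 3 * (2 * D ^ 3 * ((i : ℝ) + 1)) :=
          mul_le_mul_of_nonneg_right h4 (by positivity)
      _ = _ := by
          field_simp
  refine (sum_le_sum h2).trans ?_
  rw [← mul_sum]
  have h3 := inv_sq_sum ⌊B⌋₊
  calc (2 * D ^ 3 * B) * ∑ i ∈ range ⌊B⌋₊, 1 / ((i : ℝ) + 1) ^ 2 ≤ (2 * D ^ 3 * B) * 2 :=
        mul_le_mul_of_nonneg_left h3 (by positivity)
    _ = 4 * C1 ^ 3 * B ^ (1 + θ) := by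
        have e1 : (B ^ (θ / 3)) ^ 3 = B ^ θ := by
          rw [← Real.rpow_natCast, ← Real.rpow_mul (by linarith)]
          congr 1
          push_cast
          ring
        rw [hD, mul_pow, e1, Real.rpow_add (by linarith), Real.rpow_one]
        ring

end Pool.Agent.Q150.V
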