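import Pool.Agent.Q273.V.Stm2

/-!
# Project V (helper273): the number of triples, arithmetic part (job CNTT)
-/

set_option autoImplicit false

namespace Pool.Agent.Q150.V

open Finset Q273.V

/-- the cubic form -/
def FF (a b c d x y : ℤ) : ℤ := a * x ^ 3 + b * x ^ 2 * y + c * x * y ^ 2 + d * y ^ 3

/-- the first partial derivative -/
def FX (a b c x y : ℤ) : ℤ := 3 * a * x ^ 2 + 2 * b * x * y + c * y ^ 2

/-- the second partial derivative -/
def FY (b c d x y : ℤ) : ℤ := b * x ^ 2 + 2 * c * x * y + 3 * d * y ^ 2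

theorem euler (a b c d x y : ℤ) : x * FX a b c x y + y * FY b c d x y = 3 * FF a b c d x y := by
  unfold FX FY FF
  ring

theorem ct_dvds (a b c d α β δ : ℤ) {g : ℤ} (h : g ∣ (ct a b c d α β δ : ℤ)) :
    g ∣ a * α ^ 3 ∧ g ∣ α ^ 2 * (3 * a * β + b * δ) ∧ g ∣ α * FX a b c β δ ∧
      g ∣ FF a b c d β δ := by
  unfold ct at h
  have h1 := h.trans (Int.gcd_dvd_left ..)
  have h2 := h.trans (Int.gcd_dvd_right ..)
  exact ⟨h1.trans (Int.gcd_dvd_left ..), h1.trans (Int.gcd_dvd_right ..),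
    h2.trans (Int.gcd_dvd_left ..), h2.trans (Int.gcd_dvd_right ..)⟩

theorem not_both {α β δ : ℤ} (hg : Int.gcd (Int.gcd α β) δ = 1) {p : ℕ} (hp : p.Prime)
    (hα : (p : ℤ) ∣ α) : ¬ ((p : ℤ) ∣ β ∧ (p : ℤ) ∣ δ) := by
  rintro ⟨h1, h2⟩
  have h3 : (p : ℤ) ∣ (Int.gcd (Int.gcd α β) δ : ℤ) := Int.dvd_coe_gcd (Int.dvd_coe_gcd hα h1) h2
  rw [hg] at h3
  have h4 : p ∣ 1 := by exact_mod_cast h3
  exact hp.one_lt.ne' (Nat.dvd_one.1 h4)

theorem pow_split {p : ℕ} (hp : p.Prime) {x : ℤ} (hx : x ≠ 0) :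
    ∃ (i : ℕ) (x' : ℤ), x = (p : ℤ) ^ i * x' ∧ ¬ (p : ℤ) ∣ x' := by
  have hfin : FiniteMultiplicity (p : ℤ) x := by
    rw [Int.finiteMultiplicity_iff]
    refine ⟨?_, hx⟩
    rw [Int.natAbs_natCast]
    exact hp.one_lt.ne'
  obtain ⟨x', h1, h2⟩ := hfin.exists_eq_pow_mul_and_not_dvd
  exact ⟨_, x', h1, h2⟩

theorem cop_pow {p : ℕ} (hp : p.Prime) {x : ℤ} (hx : ¬ (p : ℤ) ∣ x) (m : ℕ) :
    IsCoprime ((p : ℤ) ^ m) x :=
  (((Nat.prime_iff_prime_int.1 hp).irreducible.coprime_iff_not_dvd).2 hx).pow_left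

/-- the content divides the index -/
theorem ct_dvd {a b c d α β δ : ℤ} (h : Mxl a b c d) (hα : α ≠ 0) (hδ : δ ≠ 0)
    (hg : Int.gcd (Int.gcd α β) δ = 1) : ct a b c d α β δ ∣ (α * δ).natAbs := by
  rw [Nat.dvd_iff_prime_pow_dvd_dvd]
  intro p m hp hm
  by_contra hn
  have hpZ : Prime (p : ℤ) := Nat.prime_iff_prime_int.1 hp
  have hp0 : (p : ℤ) ≠ 0 := hpZ.ne_zero
  obtain ⟨i, α', hα', hα''⟩ := pow_split hp hα
  obtain ⟨k, δ', hδ', hδ''⟩ := pow_split hp hδ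
  have hmk : i + k + 1 ≤ m := by
    by_contra h1
    apply hn
    have h2 : (p : ℤ) ^ m ∣ α * δ := by
      refine (pow_dvd_pow (p : ℤ) (by omega : m ≤ i + k)).trans ?_
      rw [hα', hδ', pow_add]
      exact mul_dvd_mul (dvd_mul_right _ _) (dvd_mul_right _ _)
    have h3 : ((p ^ m : ℕ) : ℤ) ∣ α * δ := by
      push_cast
      exact h2
    exact Int.natCast_dvd.1 h3
  have hct : (p : ℤ) ^ (i + k + 1) ∣ (ct a b c d α β δ : ℤ) := by
    have h1 : ((p ^ (i + k + 1) : ℕ) : ℤ) ∣ (ct a b c d α β δ : ℤ) :=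
      Int.natCast_dvd_natCast.2 ((pow_dvd_pow p hmk).trans hm)
    push_cast at h1
    exact h1
  obtain ⟨e1, e2, e3, e4⟩ := ct_dvds a b c d α β δ hct
  obtain ⟨hM1, hM2⟩ := h p hp
  by_cases hpα : (p : ℤ) ∣ α
  · have hi : 1 ≤ i := by
      by_contra h1
      have h2 : i = 0 := by omega
      rw [h2, pow_zero, one_mul] at hα'
      exact hα'' (hα' ▸ hpα)
    refine hM2 β δ (not_both hg hp hpα) ?_
    have h1 : (p : ℤ) ^ (k + 1) ∣ FX a b c β δ := by
      rw [hα'] at e3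
      have h2 : (p : ℤ) ^ i * (p : ℤ) ^ (k + 1) ∣ (p : ℤ) ^ i * (α' * FX a b c β δ) := by
        rw [← pow_add, ← mul_assoc]
        exact e3
      exact (cop_pow hp hα'' _).dvd_of_dvd_mul_left ((mul_dvd_mul_iff_left (pow_ne_zero i hp0)).1 h2)
    have h2 : (p : ℤ) ^ (k + 1) ∣ FF a b c d β δ := (pow_dvd_pow _ (by omega)).trans e4
    have h3 : (p : ℤ) ^ (k + 1) ∣ δ * FY b c d β δ := by
      have h4 : δ * FY b c d β δ = 3 * FF a b c d β δ - β * FX a b c β δ := by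
        rw [← euler]
        ring
      rw [h4]
      exact dvd_sub (h2.mul_left _) (h1.mul_left _)
    have h4 : (p : ℤ) ∣ FY b c d β δ := by
      rw [hδ'] at h3
      have h5 : (p : ℤ) ^ k * (p : ℤ) ∣ (p : ℤ) ^ k * (δ' * FY b c d β δ) := by
        rw [← pow_succ, ← mul_assoc]
        rw [hδ']
        exact h3
      have h6 := (mul_dvd_mul_iff_left (pow_ne_zero k hp0)).1 h5
      exact (hpZ.dvd_or_dvd h6).resolve_left hδ''
    exact ⟨(pow_dvd_pow _ (by omega)).trans e4, (dvd_pow_self _ (by omega)).trans h1, h4⟩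
  · have hi : i = 0 := by
      by_contra h1
      exact hpα (hα' ▸ (dvd_pow_self _ h1).mul_right _)
    rw [hi, zero_add] at e1 e2 e3 e4
    have h1 : (p : ℤ) ^ (k + 1) ∣ a := by
      refine (cop_pow hp ?_ _).dvd_of_dvd_mul_right e1
      exact fun h2 => hpα (hpZ.dvd_of_dvd_pow h2)
    have h2 : (p : ℤ) ^ (k + 1) ∣ 3 * a * β + b * δ := by
      refine (cop_pow hp ?_ _).dvd_of_dvd_mul_left e2
      exact fun h3 => hpα (hpZ.dvd_of_dvd_pow h3)
    have h3 : (p : ℤ) ∣ b := by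
      have h4 : (p : ℤ) ^ (k + 1) ∣ b * δ := by
        have h5 : b * δ = (3 * a * β + b * δ) - a * (3 * β) := by ring
        rw [h5]
        exact dvd_sub h2 (h1.mul_right _)
      have h5 : (p : ℤ) ^ k * (p : ℤ) ∣ (p : ℤ) ^ k * (b * δ') := by
        have h6 : (p : ℤ) ^ k * (b * δ') = b * δ := by rw [hδ']; ring
        rw [← pow_succ, h6]
        exact h4
      have h6 := (mul_dvd_mul_iff_left (pow_ne_zero k hp0)).1 h5
      exact (hpZ.dvd_or_dvd h6).resolve_right hδ''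
    rcases Nat.eq_zero_or_pos k with hk | hk
    · rw [hk, pow_zero, one_mul] at hδ'
      rw [hk, zero_add, pow_one] at h1 e3 e4
      have hpδ : ¬ (p : ℤ) ∣ δ := by rw [hδ']; exact hδ''
      have h4 : (p : ℤ) ∣ c := by
        have h5 : (p : ℤ) ∣ FX a b c β δ := (hpZ.dvd_or_dvd e3).resolve_left hpα
        have h6 : c * δ ^ 2 = FX a b c β δ - a * (3 * β ^ 2) - b * (2 * β * δ) := by
          unfold FX
          ring
        have h7 : (p : ℤ) ∣ c * δ ^ 2 := by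
          rw [h6]
          exact dvd_sub (dvd_sub h5 (h1.mul_right _)) (h3.mul_right _)
        exact (hpZ.dvd_or_dvd h7).resolve_right fun h8 => hpδ (hpZ.dvd_of_dvd_pow h8)
      have h5 : (p : ℤ) ∣ d := by
        have h6 : d * δ ^ 3 = FF a b c d β δ - a * β ^ 3 - b * (β ^ 2 * δ) - c * (β * δ ^ 2) := by
          unfold FF
          ring
        have h7 : (p : ℤ) ∣ d * δ ^ 3 := by
          rw [h6]
          exact dvd_sub (dvd_sub (dvd_sub e4 (h1.mul_right _)) (h3.mul_right _)) (h4.mul_right _)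
        exact (hpZ.dvd_or_dvd h7).resolve_right fun h8 => hpδ (hpZ.dvd_of_dvd_pow h8)
      exact hM1 ⟨h1, h3, h4, h5⟩
    · have hp1 : ¬ (p : ℤ) ∣ 1 := fun h4 => hpZ.not_isUnit (isUnit_of_dvd_one h4)
      refine hM2 1 0 (fun h4 => hp1 h4.1) ⟨?_, ?_, ?_⟩
      · have h4 : a * 1 ^ 3 + b * 1 ^ 2 * 0 + c * 1 * 0 ^ 2 + d * 0 ^ 3 = a := by ring
        rw [h4]
        exact (pow_dvd_pow _ (by omega)).trans h1
      · have h4 : 3 * a * 1 ^ 2 + 2 * b * 1 * 0 + c * 0 ^ 2 = a * 3 := by ring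
        rw [h4]
        exact ((dvd_pow_self _ (by omega)).trans h1).mul_right _
      · have h4 : b * 1 ^ 2 + 2 * c * 1 * 0 + 3 * d * 0 ^ 2 = b := by ring
        rw [h4]
        exact h3

/-- zeros which are congruent modulo `p` are congruent modulo `p ^ t` -/
theorem lift {a b c d : ℤ} (h : Mxl a b c d) {p : ℕ} (hp : p.Prime) {t : ℕ} (ht : 1 ≤ t)
    {β β' δ : ℤ} (h1 : (p : ℤ) ^ t ∣ FF a b c d β δ) (h2 : (p : ℤ) ^ t ∣ FF a b c d β' δ)
    (h3 : (p : ℤ) ∣ (β' - β) * δ) (hn : ¬ ((p : ℤ) ∣ β ∧ (p : ℤ) ∣ δ))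
    (hn' : ¬ ((p : ℤ) ∣ β' ∧ (p : ℤ) ∣ δ)) : (p : ℤ) ^ t ∣ (β' - β) * δ := by
  have hpZ : Prime (p : ℤ) := Nat.prime_iff_prime_int.1 hp
  rcases Nat.lt_or_ge t 2 with ht2 | ht2
  · have : t = 1 := by omega
    rw [this, pow_one]
    exact h3
  obtain ⟨hM1, hM2⟩ := h p hp
  by_cases hpδ : (p : ℤ) ∣ δ
  · have hβ : ¬ (p : ℤ) ∣ β := fun h4 => hn ⟨h4, hpδ⟩
    have hβ' : ¬ (p : ℤ) ∣ β' := fun h4 => hn' ⟨h4, hpδ⟩
    have key : (β' - β) * δ * (β ^ 2 * FY b c d β' δ +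
        (β' - β) * δ * (c * (β * β') + 3 * d * (δ * β) + d * ((β' - β) * δ))) =
        β' ^ 3 * FF a b c d β δ - β ^ 3 * FF a b c d β' δ := by
      unfold FY FF
      ring
    have h4 : (p : ℤ) ^ t ∣ (β' - β) * δ * (β ^ 2 * FY b c d β' δ +
        (β' - β) * δ * (c * (β * β') + 3 * d * (δ * β) + d * ((β' - β) * δ))) := by
      rw [key]
      exact dvd_sub (h1.mul_left _) (h2.mul_left _)
    by_cases h5 : (p : ℤ) ∣ β ^ 2 * FY b c d β' δ +
        (β' - β) * δ * (c * (β * β') + 3 * d * (δ * β) + d * ((β' - β) * δ))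
    · exfalso
      have h6 : (p : ℤ) ∣ β ^ 2 * FY b c d β' δ := (dvd_add_left (h3.mul_right _)).1 h5
      have h7 : (p : ℤ) ∣ FY b c d β' δ :=
        (hpZ.dvd_or_dvd h6).resolve_left fun h8 => hβ (hpZ.dvd_of_dvd_pow h8)
      have hF : (p : ℤ) ∣ FF a b c d β' δ := (dvd_pow_self _ (by omega)).trans h2
      have h8 : (p : ℤ) ∣ β' * FX a b c β' δ := by
        have h9 : β' * FX a b c β' δ = 3 * FF a b c d β' δ - δ * FY b c d β' δ := by
          rw [← euler]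
          ring
        rw [h9]
        exact dvd_sub (hF.mul_left _) (h7.mul_left _)
      exact hM2 β' δ hn' ⟨(pow_dvd_pow _ ht2).trans h2, (hpZ.dvd_or_dvd h8).resolve_left hβ', h7⟩
    · exact (cop_pow hp h5 _).dvd_of_dvd_mul_right h4
  · have h3' : (p : ℤ) ∣ β' - β := (hpZ.dvd_or_dvd h3).resolve_right hpδ
    have key : (β' - β) * (FX a b c β δ + (β' - β) * (3 * a * β + b * δ + a * (β' - β))) =
        FF a b c d β' δ - FF a b c d β δ := by
      unfold FX FF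
      ring
    have h4 : (p : ℤ) ^ t ∣ (β' - β) *
        (FX a b c β δ + (β' - β) * (3 * a * β + b * δ + a * (β' - β))) := by
      rw [key]
      exact dvd_sub h2 h1
    by_cases h5 : (p : ℤ) ∣ FX a b c β δ + (β' - β) * (3 * a * β + b * δ + a * (β' - β))
    · exfalso
      have h6 : (p : ℤ) ∣ FX a b c β δ := (dvd_add_left (h3'.mul_right _)).1 h5
      have hF : (p : ℤ) ∣ FF a b c d β δ := (dvd_pow_self _ (by omega)).trans h1
      have h8 : (p : ℤ) ∣ δ * FY b c d β δ := by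
        have h9 : δ * FY b c d β δ = 3 * FF a b c d β δ - β * FX a b c β δ := by
          rw [← euler]
          ring
        rw [h9]
        exact dvd_sub (hF.mul_left _) (h6.mul_left _)
      exact hM2 β δ hn ⟨(pow_dvd_pow _ ht2).trans h1, h6, (hpZ.dvd_or_dvd h8).resolve_left hpδ⟩
    · exact ((cop_pow hp h5 _).dvd_of_dvd_mul_right h4).mul_right _

end Pool.Agent.Q150.V
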